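import Pool.Agent.Work.MP_426531_ag.Concrete

set_option autoImplicit false

open Polynomial
open scoped nonZeroDivisors

namespace Pool.Agent.Work.MP_426531_ag

theorem uF_not_const : uF ∉ Set.range (algebraMap ℂ FF) := by
  rintro ⟨c, hc⟩
  have hinj := IsFractionRing.injective (MvPolynomial (Fin 2) ℂ) FF
  have h : (MvPolynomial.C c : MvPolynomial (Fin 2) ℂ) = MvPolynomial.X 0 := by
    apply hinj
    rw [← uF, ← hc]
    rfl
  have h2 := congrArg (fun p => MvPolynomial.eval (fun _ => c + 1) p) h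
  simp at h2

theorem uF_ne_zero : uF ≠ 0 := by
  intro h
  exact uF_not_const ⟨0, by rw [map_zero, h]⟩

theorem vF_ne_zero : vF ≠ 0 := by
  intro h
  rw [vF, map_eq_zero_iff _ (IsFractionRing.injective (MvPolynomial (Fin 2) ℂ) FF)] at h
  exact MvPolynomial.X_ne_zero _ h

open Classical in
theorem main_embedding (n : ℕ) (hn : 2 ≤ n) (ζ : ℂ) (hζ : IsPrimitiveRoot ζ n) :
    ∃ f : KE ((ζ⁻¹ - 1) ^ 4 / (ζ⁻¹) ^ 2) →ₐ[ℂ] AA uF vF n ζ, Function.Injective f := by
  have hn0 : n ≠ 0 := by omega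
  have hζ0 : ζ ≠ 0 := hζ.ne_zero hn0
  let c : K1 := algebraMap ℂ K1 ζ
  have hc : c ≠ 0 := by
    intro h
    exact hζ0 ((map_eq_zero_iff _ (algebraMap ℂ K1).injective).mp h)
  have hcn : c ^ n = 1 := by
    change (algebraMap ℂ K1 ζ) ^ n = 1
    rw [← map_pow, hζ.pow_eq_one, map_one]
  let _ : Algebra FF EE := (embF hn0).toRingHom.toAlgebra
  have halg : ∀ f : FF, algebraMap FF EE f = embF hn0 f := fun f => rfl
  have hcc : ∀ b : ℂ, algebraMap FF EE (algebraMap ℂ FF b) = algebraMap K1 EE (algebraMap ℂ K1 b) := by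
    intro b
    rw [halg, AlgHom.commutes, IsScalarTower.algebraMap_apply ℂ K1 EE]
  let D : RepData uF vF n ζ EE :=
    { s := sE
      t := tE
      σ := { (sigmaE hc).toRingHom with
             commutes' := fun f => sigmaE_embF hc hn0 hcn f }
      hσs := sigmaE_sE hc
      hσt := by rw [hcc]; exact sigmaE_tE hc
      hs := by rw [halg, embF_u]
      ht := by rw [halg, embF_v]
      hσn := fun f => sigmaE_iterate hc hcn f }
  have hwC : ∀ b : K1, b ≠ 0 → RatFunc.inftyValuation K1 (algebraMap K1 EE b) = 1 :=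
    fun b hb => RatFunc.inftyValuation.C K1 hb
  refine exists_KE_hom D (RatFunc.inftyValuation K1) hn0 uF_ne_zero vF_ne_zero hζ uF_not_const
    ?_ ?_ ?_ ?_
  · exact hwC _ RatFunc.X_ne_zero
  · change 1 < RatFunc.inftyValuation K1 tE
    rw [tE, RatFunc.algebraMap_X, RatFunc.inftyValuation.X]
    rw [← WithZero.exp_zero]
    exact WithZero.exp_lt_exp.mpr Int.one_pos
  · intro f
    exact val_sigmaE hc f
  · intro b
    rw [hcc]
    by_cases hb : b = 0
    · rw [hb, map_zero, map_zero, map_zero]; exact zero_le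
    · rw [hwC]
      intro h
      exact hb ((map_eq_zero_iff _ (algebraMap ℂ K1).injective).mp h)

theorem main (n : ℕ) (hn : 2 ≤ n) (ζ : ℂ) (hζ : IsPrimitiveRoot ζ n) :
    ∃ (L : Type) (_ : Field L) (_ : Algebra ℂ L) (f : L →ₐ[ℂ] AA uF vF n ζ),
      Function.Injective f ∧ Algebra.trdeg ℂ L = 1 ∧ IsEmpty (L ≃ₐ[ℂ] RatFunc ℂ) := by
  obtain ⟨f, hf⟩ := main_embedding n hn ζ hζ
  have hn0 : n ≠ 0 := by omega
  have hζ0 : ζ ≠ 0 := hζ.ne_zero hn0
  have hζ1 : ζ ≠ 1 := hζ.ne_one (by omega)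
  have ha : (ζ⁻¹ - 1) ^ 4 / (ζ⁻¹) ^ 2 ≠ 0 := by
    apply div_ne_zero
    · apply pow_ne_zero
      rw [sub_ne_zero]
      intro h
      exact hζ1 (inv_eq_one.mp h)
    · exact pow_ne_zero _ (inv_ne_zero hζ0)
  exact ⟨KE _, inferInstance, inferInstance, f, hf, KE_trdeg _, KE_not_rational _ ha⟩

end Pool.Agent.Work.MP_426531_ag
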