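import Pool.Agent.Work.MP_426531_ag.Embed

set_option autoImplicit false

namespace Pool.Agent.Work.MP_426531_ag

variable {F : Type*} [Field F] [Algebra ℂ F] {A : Type*} [Ring A] [Algebra F A] [Algebra ℂ A]
  [IsScalarTower ℂ F A]

/-- A commuting pair satisfying the elliptic relation, such that no `L - c` is a zero divisor,
gives an embedding of the function field. -/
theorem exists_embedding [Nontrivial A] [Module.Finite F A] (a : ℂ) (L M : A)
    (hcomm : L * M = M * L) (hrel : M * M = L * (L * L) + a • L)
    (hz : ∀ (c : ℂ) (z : A), (L - algebraMap ℂ A c) * z = 0 → z = 0) :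
    ∃ f : KE a →ₐ[ℂ] A, Function.Injective f := by
  let Z : Subalgebra F A := Subalgebra.centralizer F {L, M}
  let S : Subalgebra F Z := Subalgebra.center F Z
  have hLZ : L ∈ Z := by
    rw [Subalgebra.mem_centralizer_iff]
    rintro g (rfl | rfl)
    · rfl
    · exact hcomm.symm
  have hMZ : M ∈ Z := by
    rw [Subalgebra.mem_centralizer_iff]
    rintro g (rfl | rfl)
    · exact hcomm
    · rfl
  have hLS : (⟨L, hLZ⟩ : Z) ∈ S := by
    rw [Subalgebra.mem_center_iff]
    intro b
    apply Subtype.ext
    have := (Subalgebra.mem_centralizer_iff F).mp b.2 L (by simp)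
    exact this.symm
  have hMS : (⟨M, hMZ⟩ : Z) ∈ S := by
    rw [Subalgebra.mem_center_iff]
    intro b
    apply Subtype.ext
    have := (Subalgebra.mem_centralizer_iff F).mp b.2 M (by simp)
    exact this.symm
  let l : S := ⟨⟨L, hLZ⟩, hLS⟩
  let m : S := ⟨⟨M, hMZ⟩, hMS⟩
  have hlm : m ^ 2 = l ^ 3 + algebraMap ℂ S a * l := by
    apply Subtype.ext
    apply Subtype.ext
    have e1 : (((m ^ 2 : S) : Z) : A) = M * M := by
      rw [pow_two]; rfl
    have e2 : (((l ^ 3 + algebraMap ℂ S a * l : S) : Z) : A)
        = L * (L * L) + a • L := by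
      rw [pow_succ', pow_two, ← Algebra.smul_def]; rfl
    rw [e1, e2, hrel]
  have hunit : ∀ c : ℂ, IsUnit (l - algebraMap ℂ S c) := by
    intro c
    let T : S →ₗ[F] S := LinearMap.mulLeft F (l - algebraMap ℂ S c)
    have hTinj : Function.Injective T := by
      rw [injective_iff_map_eq_zero]
      intro z hz'
      apply Subtype.ext
      apply Subtype.ext
      apply hz c
      have h1 : (l - algebraMap ℂ S c) * z = 0 := hz'
      have h2 := congrArg (fun y : S => ((y : Z) : A)) h1
      exact h2
    have hTsurj : Function.Surjective T := LinearMap.injective_iff_surjective.mp hTinj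
    obtain ⟨b, hb⟩ := hTsurj 1
    exact IsUnit.of_mul_eq_one b hb
  obtain ⟨g⟩ := exists_algHom _ l m hlm hunit
  let ι : S →ₐ[ℂ] A := ((Z.val).comp S.val).restrictScalars ℂ
  refine ⟨ι.comp g, ?_⟩
  exact (ι.comp g).toRingHom.injective

end Pool.Agent.Work.MP_426531_ag
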