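import Pool.Agent.Work.MP_426531_ag.Pair

set_option autoImplicit false

namespace Pool.Agent.Work.MP_426531_ag

variable {F : Type*} [Field F] [Algebra ℂ F]

/-- The defining relations of the cyclic algebra. -/
def relq (u v : F) (n : ℕ) (ζ : ℂ) :
    FreeAlgebra F (Fin 2) → FreeAlgebra F (Fin 2) → Prop := fun a b =>
  (a = FreeAlgebra.ι F (0 : Fin 2) ^ n ∧ b = algebraMap F (FreeAlgebra F (Fin 2)) u) ∨
  (a = FreeAlgebra.ι F (1 : Fin 2) ^ n ∧ b = algebraMap F (FreeAlgebra F (Fin 2)) v) ∨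
  (a = FreeAlgebra.ι F (0 : Fin 2) * FreeAlgebra.ι F (1 : Fin 2) ∧
    b = algebraMap ℂ (FreeAlgebra F (Fin 2)) ζ *
      (FreeAlgebra.ι F (1 : Fin 2) * FreeAlgebra.ι F (0 : Fin 2)))

/-- The cyclic algebra. -/
abbrev AA (u v : F) (n : ℕ) (ζ : ℂ) := RingQuot (relq u v n ζ)

section

variable (u v : F) (n : ℕ) (ζ : ℂ)

/-- First generator. -/
noncomputable def gx : AA u v n ζ := RingQuot.mkAlgHom F (relq u v n ζ) (FreeAlgebra.ι F 0)

/-- Second generator. -/
noncomputable def gy : AA u v n ζ := RingQuot.mkAlgHom F (relq u v n ζ) (FreeAlgebra.ι F 1)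

theorem gx_pow : gx u v n ζ ^ n = algebraMap F (AA u v n ζ) u := by
  have h : relq u v n ζ (FreeAlgebra.ι F (0 : Fin 2) ^ n)
      (algebraMap F (FreeAlgebra F (Fin 2)) u) := Or.inl ⟨rfl, rfl⟩
  have := RingQuot.mkAlgHom_rel F h
  rw [map_pow, AlgHom.commutes] at this
  exact this

theorem gy_pow : gy u v n ζ ^ n = algebraMap F (AA u v n ζ) v := by
  have h : relq u v n ζ (FreeAlgebra.ι F (1 : Fin 2) ^ n)
      (algebraMap F (FreeAlgebra F (Fin 2)) v) := Or.inr (Or.inl ⟨rfl, rfl⟩)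
  have := RingQuot.mkAlgHom_rel F h
  rw [map_pow, AlgHom.commutes] at this
  exact this

theorem gx_gy : gx u v n ζ * gy u v n ζ
    = algebraMap ℂ (AA u v n ζ) ζ * (gy u v n ζ * gx u v n ζ) := by
  have h : relq u v n ζ (FreeAlgebra.ι F (0 : Fin 2) * FreeAlgebra.ι F (1 : Fin 2))
      (algebraMap ℂ (FreeAlgebra F (Fin 2)) ζ *
      (FreeAlgebra.ι F (1 : Fin 2) * FreeAlgebra.ι F (0 : Fin 2))) :=
    Or.inr (Or.inr ⟨rfl, rfl⟩)
  have := RingQuot.mkAlgHom_rel F h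
  rw [map_mul, map_mul, map_mul, IsScalarTower.algebraMap_apply ℂ F (FreeAlgebra F (Fin 2)),
    AlgHom.commutes, ← IsScalarTower.algebraMap_apply ℂ F] at this
  exact this

end

section

variable {u v : F} {n : ℕ} {ζ : ℂ}

theorem gx_isUnit (hn : n ≠ 0) (hu : u ≠ 0) : IsUnit (gx u v n ζ) := by
  rw [← isUnit_pow_iff hn, gx_pow]
  exact (isUnit_iff_ne_zero.mpr hu).map _

theorem gy_isUnit (hn : n ≠ 0) (hv : v ≠ 0) : IsUnit (gy u v n ζ) := by
  rw [← isUnit_pow_iff hn, gy_pow]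
  exact (isUnit_iff_ne_zero.mpr hv).map _

/-- First generator as a unit. -/
noncomputable def ux (hn : n ≠ 0) (hu : u ≠ 0) : (AA u v n ζ)ˣ := (gx_isUnit hn hu).unit

/-- Second generator as a unit. -/
noncomputable def uy (hn : n ≠ 0) (hv : v ≠ 0) : (AA u v n ζ)ˣ := (gy_isUnit hn hv).unit

theorem ux_val (hn : n ≠ 0) (hu : u ≠ 0) : ((ux hn hu : (AA u v n ζ)ˣ) : AA u v n ζ) = gx u v n ζ :=
  IsUnit.unit_spec _

theorem uy_val (hn : n ≠ 0) (hv : v ≠ 0) : ((uy hn hv : (AA u v n ζ)ˣ) : AA u v n ζ) = gy u v n ζ :=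
  IsUnit.unit_spec _

theorem uy_ux (hn : n ≠ 0) (hu : u ≠ 0) (hv : v ≠ 0) (hζ : ζ ≠ 0) :
    ((uy hn hv : (AA u v n ζ)ˣ) : AA u v n ζ) * (ux hn hu : (AA u v n ζ)ˣ)
      = ζ⁻¹ • (((ux hn hu : (AA u v n ζ)ˣ) : AA u v n ζ) * (uy hn hv : (AA u v n ζ)ˣ)) := by
  rw [ux_val, uy_val, gx_gy, ← Algebra.smul_def, smul_smul, inv_mul_cancel₀ hζ, one_smul]

/-- Every element is a combination of monomials. -/
theorem span_em (hn : n ≠ 0) (hu : u ≠ 0) (hv : v ≠ 0) (hζ : ζ ≠ 0) :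
    Submodule.span F (Set.range fun p : ℕ × ℕ =>
      (em (ux hn hu) (uy hn hv) (p.1 : ℤ) (p.2 : ℤ) : AA u v n ζ)) = ⊤ := by
  set W := Submodule.span F (Set.range fun p : ℕ × ℕ =>
      (em (ux hn hu) (uy hn hv) (p.1 : ℤ) (p.2 : ℤ) : AA u v n ζ)) with hW
  have hmul := em_mul (ux hn hu : (AA u v n ζ)ˣ) (uy hn hv) ζ⁻¹ (inv_ne_zero hζ)
    (uy_ux hn hu hv hζ)
  have hmem : ∀ i j : ℕ, (em (ux hn hu) (uy hn hv) (i : ℤ) (j : ℤ) : AA u v n ζ) ∈ W :=
    fun i j => Submodule.subset_span ⟨(i, j), rfl⟩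
  -- scalars from ℂ act inside W
  have hC : ∀ (c : ℂ) (w : AA u v n ζ), w ∈ W → c • w ∈ W := by
    intro c w hw
    rw [← algebraMap_smul F c w]
    exact W.smul_mem _ hw
  -- closure under left multiplication by the generators
  have hx : ∀ w ∈ W, gx u v n ζ * w ∈ W := by
    intro w hw
    induction hw using Submodule.span_induction with
    | mem w hw =>
      obtain ⟨p, rfl⟩ := hw
      have h1 : gx u v n ζ = em (ux hn hu) (uy hn hv) 1 0 := by
        simp [em, ux_val]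
      change gx u v n ζ * em _ _ _ _ ∈ W
      rw [h1, hmul]
      apply hC
      have := hmem (p.1 + 1) p.2
      convert this using 2 <;> push_cast <;> ring
    | zero => simp
    | add a b _ _ ha hb => rw [mul_add]; exact W.add_mem ha hb
    | smul c a _ ha => rw [mul_smul_comm]; exact W.smul_mem _ ha
  have hy : ∀ w ∈ W, gy u v n ζ * w ∈ W := by
    intro w hw
    induction hw using Submodule.span_induction with
    | mem w hw =>
      obtain ⟨p, rfl⟩ := hw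
      have h1 : gy u v n ζ = em (ux hn hu) (uy hn hv) 0 1 := by
        simp [em, uy_val]
      change gy u v n ζ * em _ _ _ _ ∈ W
      rw [h1, hmul]
      apply hC
      have := hmem p.1 (p.2 + 1)
      convert this using 2 <;> push_cast <;> ring
    | zero => simp
    | add a b _ _ ha hb => rw [mul_add]; exact W.add_mem ha hb
    | smul c a _ ha => rw [mul_smul_comm]; exact W.smul_mem _ ha
  have key : ∀ (a : FreeAlgebra F (Fin 2)) (w : AA u v n ζ), w ∈ W →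
      RingQuot.mkAlgHom F (relq u v n ζ) a * w ∈ W := by
    intro a
    induction a using FreeAlgebra.induction with
    | grade0 r =>
      intro w hw
      rw [AlgHom.commutes, ← Algebra.smul_def]
      exact W.smul_mem _ hw
    | grade1 i =>
      intro w hw
      fin_cases i
      · exact hx w hw
      · exact hy w hw
    | mul a b ha hb =>
      intro w hw
      rw [map_mul, mul_assoc]
      exact ha _ (hb _ hw)
    | add a b ha hb =>
      intro w hw
      rw [map_add, add_mul]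
      exact W.add_mem (ha _ hw) (hb _ hw)
  have h1 : (1 : AA u v n ζ) ∈ W := by
    have := hmem 0 0
    simpa [em] using this
  rw [eq_top_iff]
  rintro z -
  obtain ⟨a, rfl⟩ := RingQuot.mkAlgHom_surjective F (relq u v n ζ) z
  have := key a 1 h1
  rwa [mul_one] at this

/-- Reduction of exponents. -/
theorem em_mod (hn : n ≠ 0) (hu : u ≠ 0) (hv : v ≠ 0) (_hζ : ζ ≠ 0) (i j : ℕ) :
    (em (ux hn hu) (uy hn hv) (i : ℤ) (j : ℤ) : AA u v n ζ)
      = (u ^ (i / n) * v ^ (j / n)) •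
        em (ux hn hu) (uy hn hv) ((i % n : ℕ) : ℤ) ((j % n : ℕ) : ℤ) := by
  have h1 : (gx u v n ζ) ^ i = algebraMap F (AA u v n ζ) (u ^ (i / n)) * gx u v n ζ ^ (i % n) := by
    conv_lhs => rw [← Nat.div_add_mod i n]
    rw [pow_add, pow_mul, gx_pow, map_pow]
  have h2 : (gy u v n ζ) ^ j = algebraMap F (AA u v n ζ) (v ^ (j / n)) * gy u v n ζ ^ (j % n) := by
    conv_lhs => rw [← Nat.div_add_mod j n]
    rw [pow_add, pow_mul, gy_pow, map_pow]
  have e : ∀ i j : ℕ, (em (ux hn hu) (uy hn hv) (i : ℤ) (j : ℤ) : AA u v n ζ)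
      = gx u v n ζ ^ i * gy u v n ζ ^ j := by
    intro i j
    simp [em, ux_val, uy_val]
  rw [e, e, h1, h2, Algebra.smul_def, map_mul]
  have hc := (Algebra.commutes (v ^ (j / n)) (gx u v n ζ ^ (i % n)))
  calc algebraMap F (AA u v n ζ) (u ^ (i / n)) * gx u v n ζ ^ (i % n)
        * (algebraMap F (AA u v n ζ) (v ^ (j / n)) * gy u v n ζ ^ (j % n))
      = algebraMap F (AA u v n ζ) (u ^ (i / n)) * (gx u v n ζ ^ (i % n)
        * algebraMap F (AA u v n ζ) (v ^ (j / n))) * gy u v n ζ ^ (j % n) := by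
          simp only [mul_assoc]
    _ = _ := by rw [← hc]; simp only [mul_assoc]

theorem span_em' (hn : n ≠ 0) (hu : u ≠ 0) (hv : v ≠ 0) (hζ : ζ ≠ 0) :
    Submodule.span F (Set.range fun p : Fin n × Fin n =>
      (em (ux hn hu) (uy hn hv) ((p.1 : ℕ) : ℤ) ((p.2 : ℕ) : ℤ) : AA u v n ζ)) = ⊤ := by
  rw [eq_top_iff, ← span_em hn hu hv hζ, Submodule.span_le]
  rintro _ ⟨p, rfl⟩
  change em _ _ _ _ ∈ _
  rw [em_mod hn hu hv hζ]
  apply Submodule.smul_mem
  apply Submodule.subset_span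
  have hn' : 0 < n := Nat.pos_of_ne_zero hn
  exact ⟨(⟨p.1 % n, Nat.mod_lt _ hn'⟩, ⟨p.2 % n, Nat.mod_lt _ hn'⟩), rfl⟩

theorem AA_finite (hn : n ≠ 0) (hu : u ≠ 0) (hv : v ≠ 0) (hζ : ζ ≠ 0) :
    Module.Finite F (AA u v n ζ) := by
  refine ⟨?_⟩
  rw [← span_em' hn hu hv hζ]
  exact Submodule.fg_span (Set.finite_range _)

end

end Pool.Agent.Work.MP_426531_ag
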