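import Pool.Agent.Work.MP_426531_ag.Val

set_option autoImplicit false

open Polynomial
open scoped nonZeroDivisors

namespace Pool.Agent.Work.MP_426531_ag

/-- The coefficient field `ℂ(s)`. -/
abbrev K1 : Type := RatFunc ℂ

/-- The field `ℂ(s)(t)`. -/
abbrev EE : Type := RatFunc K1

/-- The field `ℂ(u, v)`. -/
abbrev FF : Type := FractionRing (MvPolynomial (Fin 2) ℂ)

/-- Substitution `t ↦ c t` on polynomials. -/
noncomputable def sigma0 (c : K1) : K1[X] →ₐ[K1] K1[X] := aeval (C c * X)

theorem sigma0_natDegree {c : K1} (hc : c ≠ 0) (p : K1[X]) :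
    (sigma0 c p).natDegree = p.natDegree := by
  unfold sigma0
  rw [← comp_eq_aeval, natDegree_comp, natDegree_C_mul_X c hc, mul_one]

theorem sigma0_injective {c : K1} (hc : c ≠ 0) : Function.Injective (sigma0 c) := by
  have h : ∀ p, sigma0 c⁻¹ (sigma0 c p) = p := by
    intro p
    have : (sigma0 c⁻¹).comp (sigma0 c) = AlgHom.id K1 K1[X] := by
      ext
      simp only [sigma0, AlgHom.comp_apply, aeval_X, map_mul, AlgHom.id_apply]
      rw [show (C c : K1[X]) = algebraMap K1 K1[X] c from rfl, AlgHom.commutes]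
      rw [show (algebraMap K1 K1[X] c : K1[X]) = C c from rfl, ← mul_assoc, ← C_mul,
        mul_inv_cancel₀ hc, C_1, one_mul]
    have h2 := congrArg (fun g : K1[X] →ₐ[K1] K1[X] => g p) this
    exact h2
  exact Function.LeftInverse.injective h

/-- The automorphism `t ↦ c t` of `ℂ(s)(t)`. -/
noncomputable def sigmaE {c : K1} (hc : c ≠ 0) : EE →ₐ[K1] EE :=
  IsFractionRing.liftAlgHom (A := K1[X]) (K := EE) (L := EE)
    (g := (Algebra.algHom K1 K1[X] EE).comp (sigma0 c))
    ((IsFractionRing.injective K1[X] EE).comp (sigma0_injective hc))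

theorem sigmaE_algebraMap {c : K1} (hc : c ≠ 0) (p : K1[X]) :
    sigmaE hc (algebraMap K1[X] EE p) = algebraMap K1[X] EE (sigma0 c p) := by
  unfold sigmaE
  rw [IsFractionRing.liftAlgHom_apply]
  exact IsFractionRing.lift_algebraMap _ p

open Classical in
theorem val_sigmaE {c : K1} (hc : c ≠ 0) (f : EE) :
    RatFunc.inftyValuation K1 (sigmaE hc f) = RatFunc.inftyValuation K1 f := by
  have hden : f.denom ≠ 0 := RatFunc.denom_ne_zero f
  have hpoly : ∀ p : K1[X],
      RatFunc.inftyValuation K1 (sigmaE hc (algebraMap K1[X] EE p))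
        = RatFunc.inftyValuation K1 (algebraMap K1[X] EE p) := by
    intro p
    by_cases hp : p = 0
    · rw [hp, map_zero, map_zero]
    have hp' : sigma0 c p ≠ 0 := by
      rw [Ne, map_eq_zero_iff _ (sigma0_injective hc)]; exact hp
    rw [sigmaE_algebraMap, RatFunc.inftyValuation_apply, RatFunc.inftyValuation_apply,
      RatFunc.inftyValuation.polynomial K1 hp', RatFunc.inftyValuation.polynomial K1 hp,
      sigma0_natDegree hc]
  have hden' : algebraMap K1[X] EE f.denom ≠ 0 := by
    rw [Ne, map_eq_zero_iff _ (IsFractionRing.injective K1[X] EE)]; exact hden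
  have h0 : RatFunc.inftyValuation K1 (algebraMap K1[X] EE f.denom) ≠ 0 :=
    (Valuation.ne_zero_iff _).mpr hden'
  have h1 : f * algebraMap K1[X] EE f.denom = algebraMap K1[X] EE f.num := by
    have h := RatFunc.num_div_denom f
    rw [div_eq_iff hden'] at h
    exact h.symm
  have h2 := congrArg (fun g => RatFunc.inftyValuation K1 (sigmaE hc g)) h1
  have h3 := congrArg (fun g => RatFunc.inftyValuation K1 g) h1
  simp only [map_mul] at h2 h3
  rw [hpoly, hpoly, ← h3] at h2
  exact mul_right_cancel₀ h0 h2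

/-- The element `s`. -/
noncomputable def sE : EE := algebraMap K1 EE RatFunc.X

/-- The element `t`. -/
noncomputable def tE : EE := algebraMap K1[X] EE X

theorem sigmaE_sE {c : K1} (hc : c ≠ 0) : sigmaE hc sE = sE := AlgHom.commutes _ _

theorem sigmaE_tE {c : K1} (hc : c ≠ 0) : sigmaE hc tE = algebraMap K1 EE c * tE := by
  unfold tE
  rw [sigmaE_algebraMap, sigma0, aeval_X, map_mul]
  rfl

theorem sigmaE_iterate {c : K1} (hc : c ≠ 0) {n : ℕ} (hcn : c ^ n = 1) (f : EE) :
    (sigmaE hc)^[n] f = f := by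
  have hpow : ∀ (k : ℕ) (f : EE), ((sigmaE hc) ^ k) f = (sigmaE hc)^[k] f := by
    intro k
    induction k with
    | zero => intro f; simp
    | succ k ih => intro f; rw [pow_succ', AlgHom.mul_apply, ih, Function.iterate_succ_apply']
  have ht : ∀ k : ℕ, ((sigmaE hc) ^ k) tE = algebraMap K1 EE (c ^ k) * tE := by
    intro k
    induction k with
    | zero => simp
    | succ k ih =>
      rw [pow_succ', AlgHom.mul_apply, ih, map_mul, AlgHom.commutes, sigmaE_tE, pow_succ, map_mul]
      ring
  have h1 : (sigmaE hc) ^ n = 1 := by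
    apply IsLocalization.algHom_ext (A := K1[X]) (nonZeroDivisors K1[X])
    apply Polynomial.algHom_ext
    have := ht n
    rw [hcn, map_one, one_mul] at this
    exact this
  rw [← hpow, h1, AlgHom.one_apply]

theorem algInd {n : ℕ} (hn : n ≠ 0) : AlgebraicIndependent ℂ ![sE ^ n, tE ^ n] := by
  have h1 : AlgebraicIndependent ℂ (fun _ : Unit => (RatFunc.X : K1) ^ n) := by
    rw [algebraicIndependent_unique_type_iff]
    exact RatFunc.transcendental_X.pow (Nat.pos_of_ne_zero hn)
  have h2 : AlgebraicIndependent K1 (fun _ : Unit => tE ^ n) := by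
    rw [algebraicIndependent_unique_type_iff]
    have h3 : Transcendental K1 tE := by
      have := RatFunc.transcendental_X (K := K1)
      rwa [← RatFunc.algebraMap_X] at this
    exact h3.pow (Nat.pos_of_ne_zero hn)
  have h3 := h1.sumElim_comp h2
  have h4 := h3.comp (fun i : Fin 2 => if i = 0 then Sum.inr () else Sum.inl ()) (by
    intro i j hij
    fin_cases i <;> fin_cases j <;> simp_all)
  convert h4 using 1
  funext i
  fin_cases i
  · simp [sE]
  · simp

/-- The embedding `ℂ(u, v) → ℂ(s)(t)`, `u ↦ s ^ n`, `v ↦ t ^ n`. -/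
noncomputable def embF {n : ℕ} (hn : n ≠ 0) : FF →ₐ[ℂ] EE :=
  IsFractionRing.liftAlgHom (A := MvPolynomial (Fin 2) ℂ) (K := FF) (L := EE)
    (g := MvPolynomial.aeval ![sE ^ n, tE ^ n]) (algInd hn)

/-- The element `u`. -/
noncomputable def uF : FF := algebraMap (MvPolynomial (Fin 2) ℂ) FF (MvPolynomial.X 0)

/-- The element `v`. -/
noncomputable def vF : FF := algebraMap (MvPolynomial (Fin 2) ℂ) FF (MvPolynomial.X 1)

theorem embF_algebraMap {n : ℕ} (hn : n ≠ 0) (p : MvPolynomial (Fin 2) ℂ) :
    embF hn (algebraMap _ FF p) = MvPolynomial.aeval ![sE ^ n, tE ^ n] p := by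
  unfold embF
  rw [IsFractionRing.liftAlgHom_apply]
  exact IsFractionRing.lift_algebraMap _ p

theorem embF_u {n : ℕ} (hn : n ≠ 0) : embF hn uF = sE ^ n := by
  rw [uF, embF_algebraMap, MvPolynomial.aeval_X]; rfl

theorem embF_v {n : ℕ} (hn : n ≠ 0) : embF hn vF = tE ^ n := by
  rw [vF, embF_algebraMap, MvPolynomial.aeval_X]; rfl

theorem sigmaE_embF {c : K1} (hc : c ≠ 0) {n : ℕ} (hn : n ≠ 0) (hcn : c ^ n = 1) (f : FF) :
    sigmaE hc (embF hn f) = embF hn f := by
  have h : ((sigmaE hc).restrictScalars ℂ).comp (embF hn) = embF hn := by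
    apply IsLocalization.algHom_ext (A := MvPolynomial (Fin 2) ℂ)
      (nonZeroDivisors (MvPolynomial (Fin 2) ℂ))
    apply MvPolynomial.algHom_ext
    intro i
    fin_cases i
    · change sigmaE hc (embF hn uF) = embF hn uF
      rw [embF_u, map_pow, sigmaE_sE]
    · change sigmaE hc (embF hn vF) = embF hn vF
      rw [embF_v, map_pow, sigmaE_tE, mul_pow, ← map_pow, hcn, map_one, one_mul]
  exact congrArg (fun g : FF →ₐ[ℂ] EE => g f) h

end Pool.Agent.Work.MP_426531_ag
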