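import Mathlib

set_option autoImplicit false

open Polynomial
open scoped Polynomial.Bivariate

namespace Pool.Agent.Work.MP_426531_ag

/-- Over `ℂ`, a polynomial associated to a square is a square. -/
theorem sq_of_associated {p d : ℂ[X]} (h : Associated (d ^ 2) p) : ∃ e : ℂ[X], p = e ^ 2 := by
  obtain ⟨u, hu⟩ := h
  obtain ⟨c, hc, hcu⟩ := Polynomial.isUnit_iff.mp u.isUnit
  obtain ⟨z, hz⟩ := IsAlgClosed.exists_pow_nat_eq c (n := 2) (by norm_num)
  refine ⟨d * C z, ?_⟩
  rw [← hu, ← hcu, mul_pow, ← C_pow, hz]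

/-- If a product of coprime polynomials over `ℂ` is a square, so is the first factor. -/
theorem sq_of_coprime_mul {p r w : ℂ[X]} (hpr : IsCoprime p r) (h : p * r = w ^ 2) :
    ∃ e : ℂ[X], p = e ^ 2 := by
  obtain ⟨d, hd⟩ := exists_associated_pow_of_mul_eq_pow' hpr h
  exact sq_of_associated hd

theorem const_of_sq (a : ℂ) (ha : a ≠ 0) (p r w : ℂ[X]) (hr : r ≠ 0) (hpr : IsCoprime p r)
    (h : p * (r * (p ^ 2 + C a * r ^ 2)) = w ^ 2) : p.natDegree = 0 ∧ r.natDegree = 0 := by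
  by_cases hp : p = 0
  · subst hp
    have : IsUnit r := isCoprime_zero_left.mp hpr
    exact ⟨natDegree_zero, natDegree_eq_zero_of_isUnit this⟩
  have hpr' : IsCoprime r (p ^ 2 + C a * r ^ 2) := by
    have h1 : IsCoprime r (p ^ 2) := hpr.symm.pow_right
    have e : p ^ 2 + C a * r ^ 2 = p ^ 2 + r * (C a * r) := by ring
    rw [e]
    exact h1.add_mul_left_right (C a * r)
  have hCa : IsUnit (C a : ℂ[X]) := Polynomial.isUnit_C.mpr ha.isUnit
  have hpr'' : IsCoprime p (p ^ 2 + C a * r ^ 2) := by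
    have h1 : IsCoprime p (C a * r ^ 2) := by
      have h2 : IsCoprime p (r ^ 2) := hpr.pow_right
      exact (isCoprime_mul_unit_left_right hCa p (r ^ 2)).mpr h2
    have e : p ^ 2 + C a * r ^ 2 = C a * r ^ 2 + p * p := by ring
    rw [e]
    exact h1.add_mul_left_right p
  obtain ⟨α, hα⟩ := sq_of_coprime_mul (hpr.mul_right hpr'') h
  have h2 : r * (p * (p ^ 2 + C a * r ^ 2)) = w ^ 2 := by rw [← h]; ring
  obtain ⟨β, hβ⟩ := sq_of_coprime_mul (hpr.symm.mul_right hpr') h2
  have h3 : (p ^ 2 + C a * r ^ 2) * (p * r) = w ^ 2 := by rw [← h]; ring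
  obtain ⟨γ, hγ⟩ := sq_of_coprime_mul ((hpr''.symm).mul_right hpr'.symm) h3
  have hα0 : α ≠ 0 := by rintro rfl; exact hp (by simpa using hα)
  have hβ0 : β ≠ 0 := by rintro rfl; exact hr (by simpa using hβ)
  by_cases hγ0 : γ = 0
  · -- `p ^ 2 = - a r ^ 2`
    rw [hγ0] at hγ
    have h4 : p ^ 2 + C a * r ^ 2 = 0 := by simpa using hγ
    rw [h4] at hpr'' hpr'
    have hpu : IsUnit p := isCoprime_zero_right.mp hpr''
    have hru : IsUnit r := isCoprime_zero_right.mp hpr'
    exact ⟨natDegree_eq_zero_of_isUnit hpu, natDegree_eq_zero_of_isUnit hru⟩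
  have hαβ : IsCoprime α β := by
    have h5 : IsCoprime (α ^ 2) (β ^ 2) := by rw [← hα, ← hβ]; exact hpr
    exact (IsCoprime.pow_iff (by norm_num) (by norm_num)).mp h5
  have heq : C (1 : ℂ) * α ^ 4 + C a * β ^ 4 + C (-1 : ℂ) * γ ^ 2 = 0 := by
    rw [← hγ, hα, hβ]
    simp only [C_1, C_neg]
    ring
  have := Polynomial.flt_catalan (k := ℂ) (p := 4) (q := 4) (r := 2) (by norm_num) (by norm_num)
    (by norm_num) (by norm_num) (by norm_num) (by norm_num) (by norm_num) hα0 hβ0 hγ0 hαβ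
    one_ne_zero ha (by norm_num) heq
  refine ⟨?_, ?_⟩
  · rw [hα, natDegree_pow, this.1, mul_zero]
  · rw [hβ, natDegree_pow, this.2.1, mul_zero]

/-- The curve `y^2 = x^3 + a x` has no nonconstant parametrization by rational functions. -/
theorem no_param (a : ℂ) (ha : a ≠ 0) (l m : RatFunc ℂ)
    (h : m ^ 2 = l ^ 3 + RatFunc.C a * l) : ∃ c : ℂ, l = RatFunc.C c := by
  set p := l.num with hp
  set r := l.denom with hr
  set s := m.num with hs
  set t := m.denom with ht
  have hr0 : r ≠ 0 := RatFunc.denom_ne_zero l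
  have ht0 : t ≠ 0 := RatFunc.denom_ne_zero m
  have hl : l = algebraMap ℂ[X] (RatFunc ℂ) p / algebraMap ℂ[X] (RatFunc ℂ) r :=
    (RatFunc.num_div_denom l).symm
  have hm : m = algebraMap ℂ[X] (RatFunc ℂ) s / algebraMap ℂ[X] (RatFunc ℂ) t :=
    (RatFunc.num_div_denom m).symm
  have hinj := IsFractionRing.injective ℂ[X] (RatFunc ℂ)
  have hr1 : algebraMap ℂ[X] (RatFunc ℂ) r ≠ 0 := by
    rw [Ne, map_eq_zero_iff _ hinj]; exact hr0
  have ht1 : algebraMap ℂ[X] (RatFunc ℂ) t ≠ 0 := by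
    rw [Ne, map_eq_zero_iff _ hinj]; exact ht0
  have key : t ^ 2 * (p * (r * (p ^ 2 + C a * r ^ 2))) = (s * r ^ 2) ^ 2 := by
    apply hinj
    rw [← RatFunc.algebraMap_C] at h
    rw [hl, hm] at h
    simp only [map_mul, map_pow, map_add]
    field_simp at h
    linear_combination (-(algebraMap ℂ[X] (RatFunc ℂ) r)) * h
  have hdvd : t ∣ s * r ^ 2 := by
    have : t ^ 2 ∣ (s * r ^ 2) ^ 2 := ⟨_, key.symm⟩
    exact (UniqueFactorizationMonoid.pow_dvd_pow_iff_dvd (two_ne_zero)).mp this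
  obtain ⟨w, hw⟩ := hdvd
  have key2 : p * (r * (p ^ 2 + C a * r ^ 2)) = w ^ 2 := by
    have : t ^ 2 * (p * (r * (p ^ 2 + C a * r ^ 2))) = t ^ 2 * w ^ 2 := by
      rw [key, hw]; ring
    exact mul_left_cancel₀ (pow_ne_zero 2 ht0) this
  obtain ⟨h1, h2⟩ := const_of_sq a ha p r w hr0 (RatFunc.isCoprime_num_denom l) key2
  rw [natDegree_eq_zero] at h1 h2
  obtain ⟨c, hc⟩ := h1
  obtain ⟨d, hd⟩ := h2
  refine ⟨c / d, ?_⟩
  rw [hl, ← hc, ← hd, RatFunc.algebraMap_C, RatFunc.algebraMap_C, map_div₀]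

/-- The elliptic curve `y^2 = x^3 + a x`. -/
def curve (a : ℂ) : WeierstrassCurve.Affine ℂ :=
  { a₁ := 0, a₂ := 0, a₃ := 0, a₄ := a, a₆ := 0 }

theorem curve_rel (a : ℂ) :
    (WeierstrassCurve.Affine.CoordinateRing.mk (curve a) Y) ^ 2
      = (WeierstrassCurve.Affine.CoordinateRing.mk (curve a) (C X)) ^ 3
        + algebraMap ℂ _ a * WeierstrassCurve.Affine.CoordinateRing.mk (curve a) (C X) := by
  have e : (curve a).polynomial = Y ^ 2 - C (X ^ 3 + C a * X) := by
    simp [WeierstrassCurve.Affine.polynomial, curve]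
  have h : WeierstrassCurve.Affine.CoordinateRing.mk (curve a)
      (Y ^ 2 - C (X ^ 3 + C a * X)) = 0 := by
    rw [← e]; exact AdjoinRoot.mk_self
  rw [map_sub, map_pow, sub_eq_zero] at h
  rw [h, C_add, C_mul, C_pow, map_add, map_mul, map_pow]
  rfl

/-- The function field of `y^2 = x^3 + a x`. -/
abbrev KE (a : ℂ) : Type := (curve a).FunctionField

/-- The coordinate function `x` in the function field. -/
noncomputable def KEx (a : ℂ) : KE a :=
  algebraMap (curve a).CoordinateRing (KE a) (WeierstrassCurve.Affine.CoordinateRing.mk (curve a) (C X))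

/-- The coordinate function `y` in the function field. -/
noncomputable def KEy (a : ℂ) : KE a :=
  algebraMap (curve a).CoordinateRing (KE a) (WeierstrassCurve.Affine.CoordinateRing.mk (curve a) Y)

theorem KE_rel (a : ℂ) : (KEy a) ^ 2 = (KEx a) ^ 3 + algebraMap ℂ (KE a) a * KEx a := by
  have h := congrArg (algebraMap (curve a).CoordinateRing (KE a)) (curve_rel a)
  rw [map_add, map_mul, map_pow, map_pow, ← IsScalarTower.algebraMap_apply] at h
  exact h

theorem KE_not_rational (a : ℂ) (ha : a ≠ 0) : IsEmpty (KE a ≃ₐ[ℂ] RatFunc ℂ) := by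
  refine ⟨fun ψ => ?_⟩
  have h := congrArg ψ (KE_rel a)
  rw [map_add, map_mul, map_pow, map_pow, AlgEquiv.commutes] at h
  obtain ⟨c, hc⟩ := no_param a ha _ _ h
  have h2 : KEx a = algebraMap ℂ (KE a) c := by
    apply ψ.injective
    rw [AlgEquiv.commutes, hc]
    rfl
  have h3 : WeierstrassCurve.Affine.CoordinateRing.XClass (curve a) c ≠ 0 :=
    WeierstrassCurve.Affine.CoordinateRing.XClass_ne_zero c
  apply h3
  have hinj := IsFractionRing.injective (curve a).CoordinateRing (KE a)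
  apply hinj
  rw [map_zero, WeierstrassCurve.Affine.CoordinateRing.XClass, C_sub, map_sub, map_sub, sub_eq_zero]
  exact h2

theorem KE_trdeg (a : ℂ) : Algebra.trdeg ℂ (KE a) = 1 := by
  have h1 : Algebra.trdeg ℂ ℂ[X] + Algebra.trdeg ℂ[X] (KE a) = Algebra.trdeg ℂ (KE a) :=
    trdeg_add_eq ℂ ℂ[X] (A := KE a)
  have : Module.Finite ℂ[X] (curve a).CoordinateRing :=
    Module.Finite.of_basis (WeierstrassCurve.Affine.CoordinateRing.basis (curve a))
  have h2 : Algebra.trdeg ℂ[X] (KE a) = 0 := by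
    rw [trdeg_eq_zero_iff]
    have h3 : Algebra.IsAlgebraic ℂ[X] (curve a).CoordinateRing := inferInstance
    have h4 : Algebra.IsAlgebraic (curve a).CoordinateRing (KE a) :=
      IsLocalization.isAlgebraic _ (nonZeroDivisors (curve a).CoordinateRing)
    exact Algebra.IsAlgebraic.trans ℂ[X] (curve a).CoordinateRing (KE a)
  rw [← h1, h2, Polynomial.trdeg_of_isDomain, add_zero]

end Pool.Agent.Work.MP_426531_ag
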