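import Pool.Agent.Work.MP_426531_ag.Curve

set_option autoImplicit false

open Polynomial
open scoped Polynomial.Bivariate

namespace Pool.Agent.Work.MP_426531_ag

variable {S : Type*} [CommRing S] [Algebra ℂ S]

theorem isUnit_aeval {l : S} (hl : ∀ c : ℂ, IsUnit (l - algebraMap ℂ S c)) {p : ℂ[X]}
    (hp : p ≠ 0) : IsUnit (aeval l p) := by
  have hs := (IsAlgClosed.splits p).eq_prod_roots
  rw [hs, map_mul, aeval_C, map_multiset_prod]
  refine IsUnit.mul ?_ ?_
  · exact (isUnit_iff_ne_zero.mpr (leadingCoeff_ne_zero.mpr hp)).map (algebraMap ℂ S)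
  · refine Multiset.prod_induction IsUnit _ (fun a b ha hb => ha.mul hb) isUnit_one ?_
    intro b hb
    simp only [Multiset.mem_map] at hb
    obtain ⟨c, ⟨d, hd, rfl⟩, rfl⟩ := hb
    rw [map_sub, aeval_X, aeval_C]
    exact hl d

/-- The map from the coordinate ring determined by a point. -/
noncomputable def coordMap (a : ℂ) (l m : S) (h : m ^ 2 = l ^ 3 + algebraMap ℂ S a * l) :
    (curve a).CoordinateRing →+* S :=
  AdjoinRoot.lift (aeval l : ℂ[X] →ₐ[ℂ] S).toRingHom m (by
    have e : (curve a).polynomial = Y ^ 2 - C (X ^ 3 + C a * X) := by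
      simp [WeierstrassCurve.Affine.polynomial, curve]
    rw [e, eval₂_sub, eval₂_pow, eval₂_X, eval₂_C, sub_eq_zero, h]
    simp)

theorem coordMap_algebraMap (a : ℂ) (l m : S) (h : m ^ 2 = l ^ 3 + algebraMap ℂ S a * l)
    (p : ℂ[X]) : coordMap a l m h (algebraMap ℂ[X] _ p) = aeval l p := by
  have : coordMap a l m h (AdjoinRoot.of _ p) = _ := AdjoinRoot.lift_of _
  exact this

theorem coordMap_isUnit (a : ℂ) (l m : S) (h : m ^ 2 = l ^ 3 + algebraMap ℂ S a * l)
    (hl : ∀ c : ℂ, IsUnit (l - algebraMap ℂ S c)) (z : (curve a).CoordinateRing) (hz : z ≠ 0) :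
    IsUnit (coordMap a l m h z) := by
  have : Module.Finite ℂ[X] (curve a).CoordinateRing :=
    Module.Finite.of_basis (WeierstrassCurve.Affine.CoordinateRing.basis (curve a))
  have hint : IsIntegral ℂ[X] z := Algebra.IsIntegral.isIntegral z
  have hne := Ideal.comap_ne_bot_of_integral_mem (I := Ideal.span {z}) hz
    (Ideal.mem_span_singleton_self z) hint
  obtain ⟨p, hp, hp0⟩ := (Submodule.ne_bot_iff _).mp hne
  rw [Ideal.mem_comap, Ideal.mem_span_singleton] at hp
  obtain ⟨w, hw⟩ := hp
  have h1 := congrArg (coordMap a l m h) hw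
  rw [coordMap_algebraMap, map_mul] at h1
  have h2 := isUnit_aeval hl hp0
  rw [h1] at h2
  exact isUnit_of_mul_isUnit_left h2

theorem exists_algHom (a : ℂ) (l m : S) (h : m ^ 2 = l ^ 3 + algebraMap ℂ S a * l)
    (hl : ∀ c : ℂ, IsUnit (l - algebraMap ℂ S c)) : Nonempty (KE a →ₐ[ℂ] S) := by
  let g : (curve a).CoordinateRing →ₐ[ℂ] S :=
    { coordMap a l m h with
      commutes' := by
        intro c
        have : algebraMap ℂ (curve a).CoordinateRing c
            = algebraMap ℂ[X] (curve a).CoordinateRing (C c) := rfl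
        change coordMap a l m h (algebraMap ℂ (curve a).CoordinateRing c) = _
        rw [this, coordMap_algebraMap, aeval_C] }
  refine ⟨IsLocalization.liftAlgHom (M := nonZeroDivisors (curve a).CoordinateRing) (f := g) ?_⟩
  intro y
  exact coordMap_isUnit a l m h hl y (nonZeroDivisors.coe_ne_zero y)

end Pool.Agent.Work.MP_426531_ag
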