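import Pool.Agent.Work.MP_426531_ag.Torus

set_option autoImplicit false

namespace Pool.Agent.Work.MP_426531_ag

variable {k A : Type*} [Field k] [Ring A] [Algebra k A]

/-- The element `L = U^2 + lambda X^(-1)` with `U = Y + (X + X^(-1)) Y^(-1)`. -/
def elL (X Y : Aˣ) (q : k) : A :=
  em X Y 0 2 + (1 + q) • em X Y 1 0 + ((1 + q ^ 3) / q ^ 2) • em X Y (-1) 0
    + q⁻¹ • em X Y 2 (-2) + (q + q⁻¹) • em X Y 0 (-2) + q • em X Y (-2) (-2)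

/-- The element `M` commuting with `L`. -/
def elM (X Y : Aˣ) (q : k) : A :=
  em X Y 0 3 + (1 + q + q ^ 2) • em X Y 1 1
    + ((1 + q + q ^ 2) * (1 - q + q ^ 2) / q ^ 3) • em X Y (-1) 1
    + ((1 + q + q ^ 2) * (1 + q ^ 2) / q ^ 2) • em X Y 0 (-1)
    + ((1 + q + q ^ 2) / q) • em X Y 2 (-1)
    + ((1 + q + q ^ 2) * (1 - q + q ^ 2) / q ^ 2) • em X Y (-2) (-1)
    + (1 / q ^ 3) • em X Y 3 (-3) + (q + q⁻¹ + 1 / q ^ 3) • em X Y 1 (-3)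
    + (q ^ 3 + q + q⁻¹) • em X Y (-1) (-3) + q ^ 3 • em X Y (-3) (-3)

theorem elL_elM_comm (X Y : Aˣ) (q : k) (hq : q ≠ 0)
    (h : (Y : A) * X = q • ((X : A) * Y)) :
    elL X Y q * elM X Y q = elM X Y q * elL X Y q := by
  have hm := em_mul X Y q hq h
  unfold elL elM
  simp only [add_mul, mul_add, smul_mul_assoc, mul_smul_comm, hm, smul_smul]
  norm_num
  match_scalars <;> field_simp <;> ring

theorem elL_sq (X Y : Aˣ) (q : k) (hq : q ≠ 0)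
    (h : (Y : A) * X = q • ((X : A) * Y)) :
    elL X Y q * elL X Y q = 
    (1 / q ^ 6) • em X Y 4 (-4)
    + ((1 + q + q ^ 2 + q ^ 3) / q ^ 3) • em X Y 3 (-2)
    + ((1 + q + 2 * q ^ 2 + q ^ 3 + q ^ 4) / q) • em X Y 2 0
    + ((1 + q ^ 2 + q ^ 4 + q ^ 6) / q ^ 6) • em X Y 2 (-4)
    + (1 + q + q ^ 2 + q ^ 3) • em X Y 1 2
    + ((2 + q + 3 * q ^ 2 + 3 * q ^ 3 + q ^ 4 + 2 * q ^ 5) / q ^ 3) • em X Y 1 (-2)
    + em X Y 0 4
    + ((2 + 4 * q + 4 * q ^ 3 + 2 * q ^ 4) / q ^ 2) • em X Y 0 0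
    + ((1 + q ^ 2 + 2 * q ^ 4 + q ^ 6 + q ^ 8) / q ^ 4) • em X Y 0 (-4)
    + ((1 + q ^ 2 + q ^ 3 + q ^ 5) / q ^ 4) • em X Y (-1) 2
    + ((1 + 3 * q ^ 2 + 2 * q ^ 3 + 2 * q ^ 4 + 3 * q ^ 5 + q ^ 7) / q ^ 3) • em X Y (-1) (-2)
    + ((1 + q + 2 * q ^ 3 + q ^ 5 + q ^ 6) / q ^ 4) • em X Y (-2) 0
    + (1 + q ^ 2 + q ^ 4 + q ^ 6) • em X Y (-2) (-4)
    + ((1 + q ^ 2 + q ^ 3 + q ^ 5) / q) • em X Y (-3) (-2)
    + q ^ 6 • em X Y (-4) (-4) := by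
  have hm := em_mul X Y q hq h
  unfold elL
  simp only [add_mul, mul_add, smul_mul_assoc, mul_smul_comm, hm, smul_smul]
  norm_num
  match_scalars <;> field_simp <;> ring

/-- The elliptic relation between `L` and `M`. -/
theorem elM_sq (X Y : Aˣ) (q : k) (hq : q ≠ 0)
    (h : (Y : A) * X = q • ((X : A) * Y)) :
    elM X Y q * elM X Y q = elL X Y q * (elL X Y q * elL X Y q)
      + ((q - 1) ^ 4 / q ^ 2) • elL X Y q := by
  have hm := em_mul X Y q hq h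
  rw [elL_sq X Y q hq h]
  unfold elL elM
  simp only [add_mul, mul_add, smul_mul_assoc, mul_smul_comm, hm, smul_smul, smul_add]
  norm_num
  match_scalars <;> field_simp <;> ring

end Pool.Agent.Work.MP_426531_ag
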