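import Pool.Agent.Work.MP_426531_ag.Alg

set_option autoImplicit false

namespace Pool.Agent.Work.MP_426531_ag

section LinIndep

variable {F : Type*} [Field F] [Algebra ℂ F] {R : Type*} [Ring R] [Nontrivial R] [Algebra F R]

/-- In any nontrivial algebra containing `x, y` with the right commutation rule, the monomials are
linearly independent: they are eigenvectors of one operator with distinct eigenvalues. -/
theorem em_linearIndependent (x y : Rˣ) (u : F) {n : ℕ} (hn : n ≠ 0) {ζ : ℂ}
    (hζ : IsPrimitiveRoot ζ n)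
    (h : (y : R) * x = (algebraMap ℂ F ζ⁻¹) • ((x : R) * y))
    (hu : u ∉ Set.range (algebraMap ℂ F)) :
    LinearIndependent F (fun p : Fin n × Fin n => (em x y ((p.1 : ℕ) : ℤ) ((p.2 : ℕ) : ℤ) : R)) := by
  set q : F := algebraMap ℂ F ζ⁻¹ with hq
  have hζ0 : ζ ≠ 0 := hζ.ne_zero hn
  have hinj : Function.Injective (algebraMap ℂ F) := (algebraMap ℂ F).injective
  have hq0 : q ≠ 0 := by
    rw [hq, Ne, map_eq_zero_iff _ hinj]
    exact inv_ne_zero hζ0
  have hqprim : IsPrimitiveRoot q n := (hζ.inv).map_of_injective hinj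
  have hmul := em_mul x y q hq0 h
  let T : Module.End F R :=
    (LinearMap.mulLeft F (em x y 0 1 : R)) ∘ₗ (LinearMap.mulRight F (em x y 0 (-1) : R))
      + u • ((LinearMap.mulLeft F (em x y (-1) 0 : R)) ∘ₗ (LinearMap.mulRight F (em x y 1 0 : R)))
  have hT : ∀ p : Fin n × Fin n, T (em x y ((p.1 : ℕ) : ℤ) ((p.2 : ℕ) : ℤ))
      = (q ^ (p.1 : ℕ) + u * q ^ (p.2 : ℕ)) • (em x y ((p.1 : ℕ) : ℤ) ((p.2 : ℕ) : ℤ) : R) := by
    intro p
    simp only [T, LinearMap.add_apply, LinearMap.comp_apply, LinearMap.smul_apply,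
      LinearMap.mulLeft_apply, LinearMap.mulRight_apply, hmul, mul_smul_comm, smul_smul]
    have e1 : ∀ m : ℤ, (0 : ℤ) + (m + 0) = m := by intro m; ring
    have e2 : ∀ m : ℤ, (1 : ℤ) + (m + -1) = m := by intro m; ring
    have e3 : ∀ m : ℤ, (-1 : ℤ) + (m + 1) = m := by intro m; ring
    simp only [e1, e2, e3]
    simp only [mul_zero, zpow_zero, one_mul, mul_one, add_zero, zero_mul, zpow_natCast, add_smul]
  refine Module.End.eigenvectors_linearIndependent' T
    (fun p : Fin n × Fin n => q ^ (p.1 : ℕ) + u * q ^ (p.2 : ℕ)) ?_ _ ?_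
  · rintro ⟨i, j⟩ ⟨i', j'⟩ hij
    simp only at hij
    have hj : j = j' := by
      by_contra hne
      apply hu
      have hd : q ^ (j : ℕ) - q ^ (j' : ℕ) ≠ 0 := by
        intro h0
        apply hne
        apply Fin.ext
        exact hqprim.pow_inj j.2 j'.2 (sub_eq_zero.mp h0)
      have hval : u = (q ^ (i' : ℕ) - q ^ (i : ℕ)) / (q ^ (j : ℕ) - q ^ (j' : ℕ)) := by
        rw [eq_div_iff hd]
        linear_combination hij
      refine ⟨((ζ⁻¹) ^ (i' : ℕ) - (ζ⁻¹) ^ (i : ℕ)) / ((ζ⁻¹) ^ (j : ℕ) - (ζ⁻¹) ^ (j' : ℕ)), ?_⟩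
      rw [hval, map_div₀, map_sub, map_sub, map_pow, map_pow, map_pow, map_pow]
    subst hj
    have hi : i = i' := by
      apply Fin.ext
      apply hqprim.pow_inj i.2 i'.2
      exact add_right_cancel hij
    rw [hi]
  · intro p
    rw [Module.End.hasEigenvector_iff, Module.End.mem_eigenspace_iff]
    refine ⟨hT p, ?_⟩
    exact Units.ne_zero _

end LinIndep

section Rep

variable {F : Type*} [Field F] [Algebra ℂ F] {E : Type*} [Field E] [Algebra F E]
  {u v : F} {n : ℕ} {ζ : ℂ}

/-- Data giving a representation of the cyclic algebra on a field `E`. -/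
structure RepData (u v : F) (n : ℕ) (ζ : ℂ) (E : Type*) [Field E] [Algebra F E] where
  s : E
  t : E
  σ : E →ₐ[F] E
  hσs : σ s = s
  hσt : σ t = algebraMap F E (algebraMap ℂ F ζ) * t
  hs : s ^ n = algebraMap F E u
  ht : t ^ n = algebraMap F E v
  hσn : ∀ f : E, (σ)^[n] f = f

/-- The operator of `x`. -/
noncomputable def RepData.xop (D : RepData u v n ζ E) : Module.End F E :=
  (LinearMap.mulLeft F D.s) ∘ₗ D.σ.toLinearMap

/-- The operator of `y`. -/
noncomputable def RepData.yop (D : RepData u v n ζ E) : Module.End F E :=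
  LinearMap.mulLeft F D.t

theorem RepData.xop_apply (D : RepData u v n ζ E) (f : E) : D.xop f = D.s * D.σ f := rfl

theorem RepData.yop_apply (D : RepData u v n ζ E) (f : E) : D.yop f = D.t * f := rfl

theorem RepData.xop_pow (D : RepData u v n ζ E) (k : ℕ) (f : E) :
    (D.xop ^ k) f = D.s ^ k * (D.σ)^[k] f := by
  induction k generalizing f with
  | zero => simp
  | succ k ih =>
    rw [pow_succ', Module.End.mul_apply, ih, RepData.xop_apply, map_mul, map_pow, D.hσs,
      Function.iterate_succ_apply', pow_succ']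
    ring

theorem RepData.yop_pow (D : RepData u v n ζ E) (k : ℕ) (f : E) :
    (D.yop ^ k) f = D.t ^ k * f := by
  induction k generalizing f with
  | zero => simp
  | succ k ih =>
    rw [pow_succ', Module.End.mul_apply, ih, RepData.yop_apply, pow_succ']
    ring

/-- The representation. -/
noncomputable def RepData.rho (D : RepData u v n ζ E) : AA u v n ζ →ₐ[F] Module.End F E :=
  RingQuot.liftAlgHom F ⟨FreeAlgebra.lift F ![D.xop, D.yop], by
    rintro a b (⟨rfl, rfl⟩ | ⟨rfl, rfl⟩ | ⟨rfl, rfl⟩)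
    · rw [map_pow, FreeAlgebra.lift_ι_apply, AlgHom.commutes]
      ext f
      change ((D.xop) ^ n) f = _
      rw [D.xop_pow, D.hs, D.hσn, Module.algebraMap_end_apply, Algebra.smul_def]
    · rw [map_pow, FreeAlgebra.lift_ι_apply, AlgHom.commutes]
      ext f
      change ((D.yop) ^ n) f = _
      rw [D.yop_pow, D.ht, Module.algebraMap_end_apply, Algebra.smul_def]
    · rw [map_mul, map_mul, map_mul, FreeAlgebra.lift_ι_apply, FreeAlgebra.lift_ι_apply,
        IsScalarTower.algebraMap_apply ℂ F (FreeAlgebra F (Fin 2)), AlgHom.commutes]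
      ext f
      change D.s * D.σ (D.t * f) = (algebraMap ℂ F ζ) • (D.t * (D.s * D.σ f))
      rw [map_mul, D.hσt, Algebra.smul_def]
      ring⟩

theorem RepData.rho_gx (D : RepData u v n ζ E) : D.rho (gx u v n ζ) = D.xop := by
  unfold RepData.rho gx
  rw [RingQuot.liftAlgHom_mkAlgHom_apply, FreeAlgebra.lift_ι_apply]
  rfl

theorem RepData.rho_gy (D : RepData u v n ζ E) : D.rho (gy u v n ζ) = D.yop := by
  unfold RepData.rho gy
  rw [RingQuot.liftAlgHom_mkAlgHom_apply, FreeAlgebra.lift_ι_apply]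
  rfl

theorem RepData.nontrivial (D : RepData u v n ζ E) : Nontrivial (AA u v n ζ) :=
  D.rho.toRingHom.domain_nontrivial

/-- The representation is faithful. -/
theorem RepData.rho_injective (D : RepData u v n ζ E) (hn : n ≠ 0) (hu : u ≠ 0) (hv : v ≠ 0)
    (hζ : IsPrimitiveRoot ζ n) (hu' : u ∉ Set.range (algebraMap ℂ F)) :
    Function.Injective D.rho := by
  have hζ0 : ζ ≠ 0 := hζ.ne_zero hn
  let x' : (Module.End F E)ˣ := Units.map D.rho.toRingHom.toMonoidHom (ux hn hu)
  let y' : (Module.End F E)ˣ := Units.map D.rho.toRingHom.toMonoidHom (uy hn hv)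
  have hrel : (y' : Module.End F E) * x' = (algebraMap ℂ F ζ⁻¹) • ((x' : Module.End F E) * y') := by
    have h := congrArg D.rho (uy_ux (u := u) (v := v) (ζ := ζ) hn hu hv hζ0)
    rw [← algebraMap_smul F, map_smul, map_mul, map_mul] at h
    exact h
  have hli := em_linearIndependent x' y' u hn hζ hrel hu'
  rw [injective_iff_map_eq_zero]
  intro z hz
  have hz' : z ∈ Submodule.span F (Set.range fun p : Fin n × Fin n =>
      (em (ux hn hu) (uy hn hv) ((p.1 : ℕ) : ℤ) ((p.2 : ℕ) : ℤ) : AA u v n ζ)) := by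
    rw [span_em' hn hu hv hζ0]; trivial
  rw [Submodule.mem_span_range_iff_exists_fun] at hz'
  obtain ⟨c, rfl⟩ := hz'
  have hem : ∀ i j : ℤ, D.rho (em (ux hn hu) (uy hn hv) i j) = em x' y' i j := by
    intro i j
    simp only [em, Units.val_mul, map_mul]
    congr 1
    · have : ((x' ^ i : (Module.End F E)ˣ) : Module.End F E)
          = ((Units.map D.rho.toRingHom.toMonoidHom (ux hn hu ^ i) : (Module.End F E)ˣ) :
            Module.End F E) := by rw [map_zpow]
      rw [this]; rfl
    · have : ((y' ^ j : (Module.End F E)ˣ) : Module.End F E)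
          = ((Units.map D.rho.toRingHom.toMonoidHom (uy hn hv ^ j) : (Module.End F E)ˣ) :
            Module.End F E) := by rw [map_zpow]
      rw [this]; rfl
  rw [map_sum] at hz
  simp only [map_smul, hem] at hz
  have h0 := Fintype.linearIndependent_iff.mp hli c hz
  simp [h0]

end Rep

end Pool.Agent.Work.MP_426531_ag
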