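import Mathlib

set_option autoImplicit false

namespace Pool.Agent.Work.MP_426531_ag

/-- Commutation of powers in a group, with a commuting `Q`. -/
theorem group_comm_zpow {G : Type*} [Group G] (X Y Q : G) (hQX : Commute Q X) (hQY : Commute Q Y)
    (h : Y * X = Q * X * Y) (j k : ℤ) :
    Y ^ j * X ^ k = Q ^ (j * k) * X ^ k * Y ^ j := by
  have h1 : ∀ j : ℤ, Y ^ j * X * (Y ^ j)⁻¹ = Q ^ j * X := by
    intro j
    induction j using Int.induction_on with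
    | zero => simp
    | succ i ih =>
      have e1 : Y ^ ((i : ℤ) + 1) * X * (Y ^ ((i : ℤ) + 1))⁻¹
          = Y * (Y ^ (i : ℤ) * X * (Y ^ (i : ℤ))⁻¹) * Y⁻¹ := by
        rw [add_comm, zpow_add, zpow_one]; group
      rw [e1, ih]
      have e2 : Y * (Q ^ (i : ℤ) * X) * Y⁻¹ = Q ^ (i : ℤ) * (Y * X) * Y⁻¹ := by
        have := (hQY.zpow_left (i : ℤ)).eq
        calc Y * (Q ^ (i : ℤ) * X) * Y⁻¹ = (Y * Q ^ (i : ℤ)) * X * Y⁻¹ := by group
          _ = (Q ^ (i : ℤ) * Y) * X * Y⁻¹ := by rw [this]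
          _ = _ := by group
      rw [e2, h, zpow_add, zpow_one]
      group
    | pred i ih =>
      have e1 : Y ^ (-(i : ℤ) - 1) * X * (Y ^ (-(i : ℤ) - 1))⁻¹
          = Y⁻¹ * (Y ^ (-(i : ℤ)) * X * (Y ^ (-(i : ℤ)))⁻¹) * Y := by
        rw [sub_eq_add_neg, add_comm, zpow_add, zpow_neg_one]; group
      rw [e1, ih]
      have h' : Y⁻¹ * X * Y = Q⁻¹ * X := by
        have h3 : X * Y = Q⁻¹ * (Y * X) := by rw [h]; group
        have h4 : Y⁻¹ * Q⁻¹ = Q⁻¹ * Y⁻¹ := (hQY.inv_inv.eq).symm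
        calc Y⁻¹ * X * Y = Y⁻¹ * (X * Y) := by group
          _ = Y⁻¹ * Q⁻¹ * (Y * X) := by rw [h3]; group
          _ = Q⁻¹ * Y⁻¹ * (Y * X) := by rw [h4]
          _ = _ := by group
      have e2 : Y⁻¹ * (Q ^ (-(i : ℤ)) * X) * Y = Q ^ (-(i : ℤ)) * (Y⁻¹ * X * Y) := by
        have := ((hQY.inv_right).zpow_left (-(i : ℤ))).eq
        calc Y⁻¹ * (Q ^ (-(i : ℤ)) * X) * Y = (Y⁻¹ * Q ^ (-(i : ℤ))) * X * Y := by group
          _ = (Q ^ (-(i : ℤ)) * Y⁻¹) * X * Y := by rw [this]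
          _ = _ := by group
      rw [e2, h', sub_eq_add_neg, zpow_add, zpow_neg_one]
      group
  have h2 : Y ^ j * X ^ k * (Y ^ j)⁻¹ = (Q ^ j * X) ^ k := by
    rw [← h1 j, conj_zpow]
  have h3 : (Q ^ j * X) ^ k = Q ^ (j * k) * X ^ k := by
    rw [(hQX.zpow_left j).mul_zpow, zpow_mul]
  rw [h3] at h2
  calc Y ^ j * X ^ k = (Y ^ j * X ^ k * (Y ^ j)⁻¹) * Y ^ j := by group
    _ = _ := by rw [h2]

section

variable {k A : Type*} [Field k] [Ring A] [Algebra k A]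

/-- The monomial `X^i Y^j`. -/
def em (X Y : Aˣ) (i j : ℤ) : A := ((X ^ i * Y ^ j : Aˣ) : A)

theorem em_mul (X Y : Aˣ) (q : k) (hq : q ≠ 0)
    (h : (Y : A) * X = q • ((X : A) * Y)) (i j l m : ℤ) :
    em X Y i j * em X Y l m = q ^ (j * l) • em X Y (i + l) (j + m) := by
  set Q : Aˣ := Units.map (algebraMap k A).toMonoidHom (Units.mk0 q hq) with hQ
  have hQc : ∀ Z : Aˣ, Commute Q Z := by
    intro Z
    apply Units.ext
    simp only [hQ, Units.val_mul]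
    exact Algebra.commutes _ _
  have h' : Y * X = Q * X * Y := by
    apply Units.ext
    simp only [Units.val_mul, hQ]
    rw [h, Algebra.smul_def, mul_assoc]
    rfl
  have key := group_comm_zpow X Y Q (hQc X) (hQc Y) h' j l
  unfold em
  rw [← Units.val_mul]
  have : X ^ i * Y ^ j * (X ^ l * Y ^ m) = Q ^ (j * l) * (X ^ (i + l) * Y ^ (j + m)) := by
    calc X ^ i * Y ^ j * (X ^ l * Y ^ m) = X ^ i * (Y ^ j * X ^ l) * Y ^ m := by group
      _ = X ^ i * (Q ^ (j * l) * X ^ l * Y ^ j) * Y ^ m := by rw [key]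
      _ = (X ^ i * Q ^ (j * l)) * X ^ l * Y ^ j * Y ^ m := by group
      _ = (Q ^ (j * l) * X ^ i) * X ^ l * Y ^ j * Y ^ m := by
          rw [((hQc (X ^ i)).zpow_left (j * l)).eq]
      _ = _ := by rw [zpow_add, zpow_add]; group
  rw [this, Units.val_mul, Algebra.smul_def]
  congr 1
  have h5 : Q ^ (j * l) = Units.map (algebraMap k A).toMonoidHom ((Units.mk0 q hq) ^ (j * l)) := by
    rw [hQ]; exact (map_zpow _ _ _).symm
  rw [h5, Units.coe_map, Units.val_zpow_eq_zpow_val]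
  rfl

end

end Pool.Agent.Work.MP_426531_ag
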