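import Pool.Agent.Work.MP_426531_ag.Rep
import Pool.Agent.Work.MP_426531_ag.Abstract

set_option autoImplicit false

namespace Pool.Agent.Work.MP_426531_ag

variable {F : Type*} [Field F] [Algebra ℂ F] {E : Type*} [Field E] [Algebra F E]
  {u v : F} {n : ℕ} {ζ : ℂ} {Γ₀ : Type*} [LinearOrderedCommGroupWithZero Γ₀]

theorem val_zpow (D : RepData u v n ζ E) (w : Valuation E Γ₀) (T : (AA u v n ζ)ˣ) (γ : Γ₀)
    (hγ : γ ≠ 0) (h : ∀ f, w (D.rho (T : AA u v n ζ) f) = γ * w f) (i : ℤ) (f : E) :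
    w (D.rho ((T ^ i : (AA u v n ζ)ˣ) : AA u v n ζ) f) = γ ^ i * w f := by
  have hinv : ∀ f, w (D.rho ((T⁻¹ : (AA u v n ζ)ˣ) : AA u v n ζ) f) = γ⁻¹ * w f := by
    intro f
    have h1 := h (D.rho ((T⁻¹ : (AA u v n ζ)ˣ) : AA u v n ζ) f)
    have h2 : D.rho (T : AA u v n ζ) (D.rho ((T⁻¹ : (AA u v n ζ)ˣ) : AA u v n ζ) f) = f := by
      rw [← Module.End.mul_apply, ← map_mul, Units.mul_inv, map_one, Module.End.one_apply]
    rw [h2] at h1
    rw [h1, ← mul_assoc, inv_mul_cancel₀ hγ, one_mul]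
  induction i using Int.induction_on generalizing f with
  | zero => simp
  | succ i ih =>
    rw [zpow_add, zpow_one, Units.val_mul, map_mul, Module.End.mul_apply, ih, h,
      zpow_add₀ hγ, zpow_one, mul_assoc]
  | pred i ih =>
    rw [sub_eq_add_neg, zpow_add, zpow_neg_one, Units.val_mul, map_mul, Module.End.mul_apply, ih,
      hinv, zpow_add₀ hγ, zpow_neg_one, mul_assoc]

theorem val_em (D : RepData u v n ζ E) (w : Valuation E Γ₀) (hn : n ≠ 0) (hu : u ≠ 0) (hv : v ≠ 0)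
    (hws : w D.s = 1) (hwt : 1 < w D.t) (hwσ : ∀ f, w (D.σ f) = w f) (i j : ℤ) (f : E) :
    w (D.rho (em (ux hn hu) (uy hn hv) i j) f) = w D.t ^ j * w f := by
  have h1 : ∀ (i : ℤ) (f : E),
      w (D.rho ((ux hn hu ^ i : (AA u v n ζ)ˣ) : AA u v n ζ) f) = w f := by
    intro i f
    rw [val_zpow D w (ux hn hu) 1 one_ne_zero ?_ i f, one_zpow, one_mul]
    intro g
    rw [ux_val, D.rho_gx, D.xop_apply, map_mul, hws, hwσ]
  have h2 : ∀ (j : ℤ) (f : E),
      w (D.rho ((uy hn hv ^ j : (AA u v n ζ)ˣ) : AA u v n ζ) f) = w D.t ^ j * w f := by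
    intro j f
    refine val_zpow D w (uy hn hv) (w D.t) (zero_lt_one.trans hwt).ne' ?_ j f
    intro g
    rw [uy_val, D.rho_gy, D.yop_apply, map_mul]
  rw [em, Units.val_mul, map_mul, Module.End.mul_apply, h1, h2]

theorem rho_csmul (D : RepData u v n ζ E) (c : ℂ) (a : AA u v n ζ) (f : E) :
    D.rho (c • a) f = algebraMap F E (algebraMap ℂ F c) * D.rho a f := by
  rw [← algebraMap_smul F c a, map_smul, LinearMap.smul_apply, Algebra.smul_def]

theorem rho_L_sub_ne_zero (D : RepData u v n ζ E) (w : Valuation E Γ₀) (hn : n ≠ 0) (hu : u ≠ 0)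
    (hv : v ≠ 0) (hws : w D.s = 1) (hwt : 1 < w D.t) (hwσ : ∀ f, w (D.σ f) = w f)
    (hwc : ∀ c : ℂ, w (algebraMap F E (algebraMap ℂ F c)) ≤ 1) (q c : ℂ) (f : E) (hf : f ≠ 0) :
    D.rho (elL (ux hn hu) (uy hn hv) q - algebraMap ℂ (AA u v n ζ) c) f ≠ 0 := by
  have hem := val_em D w hn hu hv hws hwt hwσ
  have hwf : 0 < w f := zero_lt_iff.mpr ((Valuation.ne_zero_iff w).mpr hf)
  have ht0 : 0 < w D.t := zero_lt_one.trans hwt
  have hsm : ∀ (b : ℂ) (g : E), w g ≤ w f →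
      w (algebraMap F E (algebraMap ℂ F b) * g) ≤ w f := by
    intro b g hg
    rw [map_mul]
    exact (mul_le_of_le_one_left zero_le (hwc b)).trans hg
  have h0 : ∀ i : ℤ, w (D.rho (em (ux hn hu) (uy hn hv) i 0) f) ≤ w f := by
    intro i; rw [hem, zpow_zero, one_mul]
  have hm2 : ∀ i : ℤ, w (D.rho (em (ux hn hu) (uy hn hv) i (-2)) f) ≤ w f := by
    intro i; rw [hem]
    refine mul_le_of_le_one_left zero_le ?_
    rw [zpow_neg]
    apply inv_le_one_of_one_le₀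
    exact one_le_zpow₀ hwt.le (by norm_num)
  intro h
  have hc1 : D.rho (algebraMap ℂ (AA u v n ζ) c) f = algebraMap F E (algebraMap ℂ F c) * f := by
    rw [Algebra.algebraMap_eq_smul_one, rho_csmul, map_one, Module.End.one_apply]
  rw [map_sub, LinearMap.sub_apply, hc1] at h
  unfold elL at h
  simp only [map_add, LinearMap.add_apply, rho_csmul] at h
  -- the leading term dominates
  have hlead : w (D.rho (em (ux hn hu) (uy hn hv) 0 2) f) = w D.t ^ (2 : ℤ) * w f := hem 0 2 f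
  have hlt : w f < w D.t ^ (2 : ℤ) * w f := by
    have h1 : (1 : Γ₀) < w D.t ^ (2 : ℤ) := one_lt_zpow₀ hwt (by norm_num)
    calc w f = 1 * w f := (one_mul _).symm
      _ < _ := mul_lt_mul_of_pos_right h1 hwf
  have hrest : D.rho (em (ux hn hu) (uy hn hv) 0 2) f
      = -(algebraMap F E (algebraMap ℂ F (1 + q)) * D.rho (em (ux hn hu) (uy hn hv) 1 0) f
        + algebraMap F E (algebraMap ℂ F ((1 + q ^ 3) / q ^ 2)) *
          D.rho (em (ux hn hu) (uy hn hv) (-1) 0) f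
        + algebraMap F E (algebraMap ℂ F q⁻¹) * D.rho (em (ux hn hu) (uy hn hv) 2 (-2)) f
        + algebraMap F E (algebraMap ℂ F (q + q⁻¹)) * D.rho (em (ux hn hu) (uy hn hv) 0 (-2)) f
        + algebraMap F E (algebraMap ℂ F q) * D.rho (em (ux hn hu) (uy hn hv) (-2) (-2)) f
        + algebraMap F E (algebraMap ℂ F (-c)) * f) := by
    simp only [map_add, map_neg]
    linear_combination h
  have hle : w (D.rho (em (ux hn hu) (uy hn hv) 0 2) f) ≤ w f := by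
    rw [hrest, Valuation.map_neg]
    refine Valuation.map_add_le _ (Valuation.map_add_le _ (Valuation.map_add_le _
      (Valuation.map_add_le _ (Valuation.map_add_le _ ?_ ?_) ?_) ?_) ?_) ?_
    · exact hsm _ _ (h0 1)
    · exact hsm _ _ (h0 (-1))
    · exact hsm _ _ (hm2 2)
    · exact hsm _ _ (hm2 0)
    · exact hsm _ _ (hm2 (-2))
    · exact hsm _ _ le_rfl
  rw [hlead] at hle
  exact absurd hlt (not_lt.mpr hle)

/-- `L - c` is not a zero divisor. -/
theorem L_sub_mul_ne_zero (D : RepData u v n ζ E) (w : Valuation E Γ₀) (hn : n ≠ 0) (hu : u ≠ 0)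
    (hv : v ≠ 0) (hζ : IsPrimitiveRoot ζ n) (hu' : u ∉ Set.range (algebraMap ℂ F))
    (hws : w D.s = 1) (hwt : 1 < w D.t) (hwσ : ∀ f, w (D.σ f) = w f)
    (hwc : ∀ c : ℂ, w (algebraMap F E (algebraMap ℂ F c)) ≤ 1) (q c : ℂ) (z : AA u v n ζ)
    (hz : (elL (ux hn hu) (uy hn hv) q - algebraMap ℂ (AA u v n ζ) c) * z = 0) : z = 0 := by
  apply D.rho_injective hn hu hv hζ hu'
  rw [map_zero]
  ext f
  by_contra hne
  apply rho_L_sub_ne_zero D w hn hu hv hws hwt hwσ hwc q c (D.rho z f) hne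
  rw [← Module.End.mul_apply, ← map_mul, hz, map_zero, LinearMap.zero_apply]

/-- The general embedding theorem. -/
theorem exists_KE_hom (D : RepData u v n ζ E) (w : Valuation E Γ₀) (hn : n ≠ 0) (hu : u ≠ 0)
    (hv : v ≠ 0) (hζ : IsPrimitiveRoot ζ n) (hu' : u ∉ Set.range (algebraMap ℂ F))
    (hws : w D.s = 1) (hwt : 1 < w D.t) (hwσ : ∀ f, w (D.σ f) = w f)
    (hwc : ∀ c : ℂ, w (algebraMap F E (algebraMap ℂ F c)) ≤ 1) :
    ∃ f : KE ((ζ⁻¹ - 1) ^ 4 / (ζ⁻¹) ^ 2) →ₐ[ℂ] AA u v n ζ, Function.Injective f := by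
  have hζ0 : ζ ≠ 0 := hζ.ne_zero hn
  have hq0 : ζ⁻¹ ≠ 0 := inv_ne_zero hζ0
  have hyx := uy_ux (u := u) (v := v) (ζ := ζ) hn hu hv hζ0
  set L : AA u v n ζ := elL (ux hn hu) (uy hn hv) ζ⁻¹ with hL
  set M : AA u v n ζ := elM (ux hn hu) (uy hn hv) ζ⁻¹ with hM
  have hcomm : L * M = M * L := elL_elM_comm _ _ _ hq0 hyx
  have hrel : M * M = L * (L * L) + ((ζ⁻¹ - 1) ^ 4 / (ζ⁻¹) ^ 2) • L := elM_sq _ _ _ hq0 hyx
  have h1 := AA_finite (F := F) (u := u) (v := v) (ζ := ζ) hn hu hv hζ0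
  have h2 := D.nontrivial
  exact exists_embedding (F := F) _ L M hcomm hrel
    (fun c z hz => L_sub_mul_ne_zero D w hn hu hv hζ hu' hws hwt hwσ hwc ζ⁻¹ c z hz)

end Pool.Agent.Work.MP_426531_ag
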